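import Pool.Agent.Q138.Met.Fin
import Pool.Agent.Y969.Ex1

set_option autoImplicit false

/-!
# The circle problem along almost every dilation of a separated sequence of radii

Weyl's theorem says that `(t R_k)` is uniformly distributed modulo one for almost all `t`, for every sequence of
reals with `|R_k - R_l| ≥ δ > 0`. We show that for every increasing sequence of radii with this property and
almost all `t > 0` the normalised error terms of the Gauss circle problem at the radii `t R_1, t R_2, …` have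
Heath-Brown's limit law.
-/

namespace Pool.Agent.Results.MP_fb29e9_nt.AlmostEveryDilation

open Filter Topology MeasureTheory Finset
open Pool.Agent.Q138.Met

theorem finite_pts (x : ℝ) : Finite {p : ℤ × ℤ // (p.1 : ℝ) ^ 2 + (p.2 : ℝ) ^ 2 ≤ x} := by
  have h : {p : ℤ × ℤ | (p.1 : ℝ) ^ 2 + (p.2 : ℝ) ^ 2 ≤ x} ⊆
      ((Pool.Agent.H383.Gauss.ballS √(max x 0) : Finset (ℤ × ℤ)) : Set (ℤ × ℤ)) := by
    intro p hp
    rw [Finset.mem_coe, Pool.Agent.H383.Gauss.mem_ballS (Real.sqrt_nonneg _),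
      Real.sq_sqrt (le_max_right _ _)]
    exact le_trans hp (le_max_left _ _)
  exact (Finset.finite_toSet _).subset h

theorem measurable_Pc : Measurable Pool.Agent.Y969.SW.Pc := by
  have h1 : Monotone fun x : ℝ =>
      (Nat.card {p : ℤ × ℤ // (p.1 : ℝ) ^ 2 + (p.2 : ℝ) ^ 2 ≤ x} : ℝ) := by
    intro x y hxy
    have := finite_pts y
    have h2 : Nat.card {p : ℤ × ℤ // (p.1 : ℝ) ^ 2 + (p.2 : ℝ) ^ 2 ≤ x} ≤
        Nat.card {p : ℤ × ℤ // (p.1 : ℝ) ^ 2 + (p.2 : ℝ) ^ 2 ≤ y} :=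
      Nat.card_le_card_of_injective (fun p => ⟨p.1, p.2.trans hxy⟩) fun p q h => by
        apply Subtype.ext
        exact congrArg (fun z : {p : ℤ × ℤ // (p.1 : ℝ) ^ 2 + (p.2 : ℝ) ^ 2 ≤ y} => z.1) h
    exact Nat.cast_le.2 h2
  unfold Pool.Agent.Y969.SW.Pc
  exact h1.measurable.sub (measurable_const.mul measurable_id)

/-- Let `N(x) = #{p ∈ ℤ² : |p|² ≤ x}`, `E(x) = (N(x) - πx)/x^{1/4}` (so `x = R²`) and `r(m) = #{p ∈ ℤ² : |p|² = m}`.
There is a law `ν` on `ℝ` (Heath-Brown's law) with a density which extends to an entire function, charging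
every interval, with mean `0` and variance `(1/(2π²)) ∑ r(h)² h^{-3/2}`, such that for every sequence of positive
radii with `R_{k+1} ≥ R_k + δ`, `δ > 0`, the following holds for almost all `t > 0`.

(1) The averages of `f(E((t R_k)²))` over `k < K` tend to `∫ f dν` for every continuous `f` with
`f(z) = O(1 + z²)`. In particular the mean of `(N((tR_k)²) - π(tR_k)²)² / (tR_k)` tends to the variance of `ν`.

(2) For every set `A` whose boundary has measure `0` the proportion of the `k < K` with `E((t R_k)²) ∈ A`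
tends to `ν(A)`. In particular `|N((tR_k)²) - π(tR_k)²| ≤ V √(tR_k)` for a proportion `ν([-V, V]) → 1` of the `k`,
and both `N((tR_k)²) - π(tR_k)² > V √(tR_k)` and `< -V √(tR_k)` for a positive proportion, for every `V`. -/
theorem result (E : ℝ → ℝ)
    (hE : ∀ x : ℝ, E x =
      ((Nat.card {p : ℤ × ℤ // (p.1 : ℝ) ^ 2 + (p.2 : ℝ) ^ 2 ≤ x} : ℝ) - Real.pi * x) /
        x ^ (1 / 4 : ℝ))
    (r : ℕ → ℕ) (hr : ∀ m : ℕ, r m = Nat.card {p : ℤ × ℤ // p.1 ^ 2 + p.2 ^ 2 = (m : ℤ)}) :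
    ∃ (ν : ProbabilityMeasure ℝ) (g : ℂ → ℂ),
      (Differentiable ℂ g ∧ (∀ x : ℝ, 0 ≤ (g x).re ∧ (g x).im = 0) ∧
        (ν : Measure ℝ) = volume.withDensity (fun x : ℝ => ENNReal.ofReal (g x).re) ∧
        (∀ u v : ℝ, u < v → 0 < (ν : Measure ℝ) (Set.Ioo u v)) ∧
        Integrable (fun x : ℝ => x ^ 2) (ν : Measure ℝ) ∧ ∫ x, x ∂(ν : Measure ℝ) = 0 ∧
        ∫ x, x ^ 2 ∂(ν : Measure ℝ) =
          (∑' h : ℕ, (r h : ℝ) ^ 2 / (h : ℝ) ^ (3 / 2 : ℝ)) / (2 * Real.pi ^ 2)) ∧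
      ∀ (R : ℕ → ℝ) (δ : ℝ), 0 < δ → 0 < R 0 → (∀ k, R k + δ ≤ R (k + 1)) →
        ∀ᵐ t : ℝ, 0 < t →
          (∀ f : ℝ → ℝ, Continuous f → (∃ C : ℝ, ∀ z, |f z| ≤ C * (1 + z ^ 2)) →
            Tendsto (fun K : ℕ => (∑ k ∈ range K, f (E ((t * R k) ^ 2))) / K) atTop
              (𝓝 (∫ z, f z ∂(ν : Measure ℝ)))) ∧
          ∀ A : Set ℝ, volume (frontier A) = 0 →
            Tendsto (fun K : ℕ => ({k : ℕ | k < K ∧ E ((t * R k) ^ 2) ∈ A}.ncard : ℝ) / K)
              atTop (𝓝 ((ν : Measure ℝ).real A)) := by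
  have hEc : E = Pool.Agent.H425R3.JL.Ec := funext hE
  subst hEc
  obtain ⟨ν, g, g1, g2, g3, g4, hν⟩ := Pool.Agent.W24.CP.SR.circ_lin r hr
  obtain ⟨μ, m1, m2, m3, m4, m5, -⟩ := hν 1 (fun _ => 1) (fun _ => 0) (fun _ => one_pos)
  have hm2 := m2 0
  have hmeas : Measurable fun x : Fin 1 → ℝ => x 0 := measurable_pi_apply 0
  have hint2 : Integrable (fun x : ℝ => x ^ 2) (ν : Measure ℝ) := by
    rw [← hm2, integrable_map_measure (by fun_prop) hmeas.aemeasurable]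
    refine m1.congr (Eventually.of_forall fun x => ?_)
    simp
  have hmean : ∫ x, x ∂(ν : Measure ℝ) = 0 := by
    rw [← hm2, integral_map hmeas.aemeasurable (by fun_prop)]
    exact m3 0
  have hvar : ∫ x, x ^ 2 ∂(ν : Measure ℝ) =
      (∑' h : ℕ, (r h : ℝ) ^ 2 / (h : ℝ) ^ (3 / 2 : ℝ)) / (2 * Real.pi ^ 2) := by
    obtain ⟨-, h2⟩ := m4 0 0 1 1 1 rfl rfl (Nat.coprime_one_left 1)
    rw [← hm2, integral_map hmeas.aemeasurable (by fun_prop)]
    have h3 : (fun x : Fin 1 → ℝ => x 0 ^ 2) = fun x => x 0 * x 0 := by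
      funext x
      ring
    rw [h3, h2]
    congr 1
    refine tsum_congr fun h => ?_
    rw [one_mul, Nat.cast_one, one_mul, one_mul, ← sq, ← Real.rpow_natCast (h : ℝ) 2,
      ← Real.rpow_mul (Nat.cast_nonneg h)]
    norm_num
  refine ⟨ν, g, ⟨g1, g2, g3, g4, hint2, hmean, hvar⟩, fun R δ hδ hR0 hR => ?_⟩
  have hlaw : ∀ f : ℝ → ℝ, Continuous f → (∃ C : ℝ, ∀ z, |f z| ≤ C * (1 + z ^ 2)) →
      Tendsto (av fun k : ℕ => f (Pool.Agent.H425R3.JL.Ec ((k : ℝ) + 1))) atTop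
        (𝓝 (∫ z, f z ∂(ν : Measure ℝ))) := by
    intro f hf hC
    refine law_int hm2 (fun F hF hFC η hη => ?_) hf hC
    obtain ⟨N0, hN0⟩ := m5 F hF hFC η hη
    refine ⟨N0, fun N hN => ?_⟩
    have h1 := (hN0 N hN 0).1 (fun _ => 1) (fun n => by simp) (fun m n _ => by simp)
    simp only [one_mul, Complex.ofReal_zero, zero_mul, mul_zero, Complex.exp_zero, Nat.cast_one,
      Nat.cast_zero, add_zero, ← Complex.ofReal_sum, Complex.norm_real, Real.norm_eq_abs] at h1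
    exact h1
  have hmain := final (E := Pool.Agent.H383.Gauss.En) (F := Pool.Agent.Y969.SW.Pc)
    (Ex := Pool.Agent.H425R3.JL.Ec) (c := 1) Pool.Agent.H452R2.Win.ag_Bdw
    Pool.Agent.H383.Circ.ag_zero Pool.Agent.H383.Circ.wg_Wt Pool.Agent.H452R2.Win.En_SandW
    one_pos measurable_Pc Pool.Agent.Y969.SW.Pc_loc (fun x => rfl) (fun n hn => by
      rw [one_mul, Pool.Agent.H425R3.JL.Ec_eq (Nat.cast_nonneg n)]) hlaw hδ hR0 hR
  filter_upwards [hmain] with t ht h0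
  obtain ⟨h1, h2⟩ := ht h0
  refine ⟨h1, fun A hA => h2 A ?_⟩
  have hac : (ν : Measure ℝ) ≪ volume := by
    rw [g3]
    exact withDensity_absolutelyContinuous _ _
  exact hac hA

end Pool.Agent.Results.MP_fb29e9_nt.AlmostEveryDilation
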