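import Pool.Agent.Q273.TB7

set_option autoImplicit false

/-!
# Thin annuli around integer circles contain too many lattice points

Let `A ρ n` be the number of the integer points `p` of the plane with `n < |p| ≤ n + ρ`. The area of the annulus is
`π (2 ρ n + ρ ^ 2)`. For every fixed real `ρ > 0` which is not an integer, the annuli contain on average too many
points: the mean over the integers `n` (or over the primes `n`) of `(A ρ n - π (2 ρ n + ρ ^ 2)) / √n` is a positive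
number `D(ρ)`, given by an explicit series, of the order `√ρ log (1 / ρ)` for small `ρ`. For small `ρ` this is
much more than the standard deviation: for almost all integers (and for almost all primes) `n` the number of points
in the annulus is equal to `π (2 ρ n + ρ ^ 2) + (1 + o(1)) D(ρ) √n`, as `n → ∞` and then `ρ → 0`, or `ρ = ρ(n) → 0`
slowly. For real numbers in place of the integers `n` there is no such excess.
-/

namespace Pool.Agent.Results.MP_fb29e9_nt.AnnuliExcess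

open Filter Topology
open Pool.Agent.Q273.TA Pool.Agent.Q273.TB

/-- `r(m)`, the number of integer points at distance `√m` from the origin -/
noncomputable def rep (m : ℕ) : ℝ := (Nat.card {p : ℤ × ℤ // p.1 ^ 2 + p.2 ^ 2 = (m:ℤ)} : ℝ)

/-- `A ρ n`, the number of integer points `p` with `n < |p| ≤ n + ρ` -/
noncomputable def A (ρ : ℝ) (n : ℕ) : ℝ :=
  (Nat.card {p : ℤ × ℤ // (n:ℝ) ^ 2 < (p.1:ℝ) ^ 2 + (p.2:ℝ) ^ 2 ∧
    (p.1:ℝ) ^ 2 + (p.2:ℝ) ^ 2 ≤ ((n:ℝ) + ρ) ^ 2} : ℝ)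

/-- `D(ρ)`, the mean excess -/
noncomputable def D (ρ : ℝ) : ℝ := √2 / (2 * Real.pi) * ∑' k : ℕ, rep (k ^ 2) / (k:ℝ) ^ (3/2:ℝ) *
  (1 - Real.cos (2 * Real.pi * (ρ * k)) + Real.sin (2 * Real.pi * (ρ * k)))

/-- the primes up to `N` -/
def primes (N : ℕ) : Finset ℕ := (Finset.Icc 1 N).filter Nat.Prime

/-- the proportion, among the integers `1 ≤ n ≤ N`, of those for which the excess `A ρ n - π (2 ρ n + ρ ^ 2)` of
the number of points over the area differs from `√n D(ρ)` by more than `ε √n D(ρ)` -/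
noncomputable def EI (ρ ε : ℝ) (N : ℕ) : ℝ :=
  (Nat.card {n : ℕ // 1 ≤ n ∧ n ≤ N ∧
    ε * (√(n:ℝ) * D ρ) < |A ρ n - Real.pi * (2 * ρ * n + ρ ^ 2) - √(n:ℝ) * D ρ|} : ℝ) / N

/-- the same proportion among the primes `p ≤ N` -/
noncomputable def EP (ρ ε : ℝ) (N : ℕ) : ℝ :=
  (Nat.card {p : ℕ // p.Prime ∧ p ≤ N ∧
    ε * (√(p:ℝ) * D ρ) < |A ρ p - Real.pi * (2 * ρ * p + ρ ^ 2) - √(p:ℝ) * D ρ|} : ℝ) / (primes N).card

lemma rep_eq (m : ℕ) : rep m = Pool.Agent.H383.Gauss.rA m := (Pool.Agent.H383.Circ.rA_card m).symm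

lemma D_eq (ρ : ℝ) : D ρ = Dm ρ := by
  unfold D Dm
  simp only [rep_eq]

lemma A_eq (ρ : ℝ) (n : ℕ) : A ρ n = An ρ n := rfl

lemma EI_eq (ρ ε : ℝ) (N : ℕ) : EI ρ ε N = ((bad (SI N) ρ ε).card : ℝ) / (SI N).card := by
  unfold EI
  rw [SI_card]
  congr 2
  apply Nat.subtype_card
  intro n
  unfold bad SI
  rw [Finset.mem_filter, Finset.mem_Icc, D_eq, A_eq]
  tauto

lemma EP_eq (ρ ε : ℝ) (N : ℕ) : EP ρ ε N = ((bad (SP N) ρ ε).card : ℝ) / (SP N).card := by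
  unfold EP
  congr 2
  apply Nat.subtype_card
  intro n
  unfold bad SP
  rw [Finset.mem_filter, Finset.mem_filter, Finset.mem_Icc, D_eq, A_eq]
  constructor
  · rintro ⟨⟨⟨-, h2⟩, h3⟩, h4⟩
    exact ⟨h3, h2, h4⟩
  · rintro ⟨h3, h2, h4⟩
    exact ⟨⟨⟨h3.one_le, h2⟩, h3⟩, h4⟩

/-- **The excess of lattice points in thin annuli around the circles of integer and of prime radius.** -/
theorem result :
    (∀ ρ : ℝ, 0 < ρ →
      Tendsto (fun N : ℕ => (∑ n ∈ Finset.Icc 1 N, (A ρ n - Real.pi * (2 * ρ * n + ρ ^ 2)) / √(n:ℝ)) / (N:ℝ))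
        atTop (𝓝 (D ρ)) ∧
      Tendsto (fun N : ℕ => (∑ p ∈ primes N, (A ρ p - Real.pi * (2 * ρ * p + ρ ^ 2)) / √(p:ℝ)) / ((primes N).card : ℝ))
        atTop (𝓝 (D ρ)) ∧
      0 ≤ D ρ ∧ (D ρ = 0 ↔ ∃ k : ℤ, ρ = k)) ∧
    (∃ c C : ℝ, 0 < c ∧ 0 < C ∧ ∀ ρ : ℝ, 0 < ρ → ρ ≤ 1 / 256 →
      c * (√ρ * Real.log (1 / ρ)) ≤ D ρ ∧ D ρ ≤ C * (√ρ * Real.log (1 / ρ))) ∧
    (∀ ε : ℝ, 0 < ε → ∃ ρ0 : ℝ, 0 < ρ0 ∧ ∀ ρ : ℝ, 0 < ρ → ρ ≤ ρ0 → ∃ N0 : ℕ, ∀ N : ℕ, N0 ≤ N →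
      EI ρ ε N ≤ ε ∧ EP ρ ε N ≤ ε) ∧
    (∃ h : ℕ → ℕ, Tendsto h atTop atTop ∧
      ∀ k : ℕ → ℕ, Tendsto k atTop atTop → (∀ N, k N ≤ h N) → ∀ ε : ℝ, 0 < ε →
        Tendsto (fun N : ℕ => EI (1 / (k N : ℝ)) ε N) atTop (𝓝 0) ∧
        Tendsto (fun N : ℕ => EP (1 / (k N : ℝ)) ε N) atTop (𝓝 0)) := by
  refine ⟨fun ρ hρ => ?_, ?_, fun ε hε => ?_, ?_⟩
  · obtain ⟨h1, h2⟩ := sn_mean hρ
    rw [D_eq]
    refine ⟨?_, h2, Dm_nonneg ρ, ?_, ?_⟩
    · refine h1.congr (fun N => ?_)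
      unfold Pool.Agent.H425R3.JL.fav
      rw [SI_card]
      rfl
    · intro h
      by_contra hk
      push Not at hk
      exact (Dm_pos hk).ne' h
    · rintro ⟨k, rfl⟩
      exact Dm_int k
  · obtain ⟨c, hc, h1⟩ := Dm_lower
    obtain ⟨C, hC, h2⟩ := Dm_upper
    exact ⟨c, C, hc, hC, fun ρ h h' => by rw [D_eq]; exact ⟨h1 ρ h h', h2 ρ h h'⟩⟩
  · obtain ⟨r1, h1, h1'⟩ := lln sys_I hε
    obtain ⟨r2, h2, h2'⟩ := lln sys_P hε
    refine ⟨min r1 r2, lt_min h1 h2, fun ρ hρ hρ0 => ?_⟩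
    obtain ⟨N1, hN1⟩ := h1' ρ hρ (hρ0.trans (min_le_left _ _))
    obtain ⟨N2, hN2⟩ := h2' ρ hρ (hρ0.trans (min_le_right _ _))
    refine ⟨max N1 N2, fun N hN => ⟨?_, ?_⟩⟩
    · rw [EI_eq]
      exact div_le_of_le_mul₀ (Nat.cast_nonneg _) hε.le (hN1 N ((le_max_left _ _).trans hN))
    · rw [EP_eq]
      exact div_le_of_le_mul₀ (Nat.cast_nonneg _) hε.le (hN2 N ((le_max_right _ _).trans hN))
  · obtain ⟨h1, t1, h1'⟩ := lln_shrink sys_I
    obtain ⟨h2, t2, h2'⟩ := lln_shrink sys_P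
    refine ⟨fun N => min (h1 N) (h2 N), ?_, fun k hk hkh ε hε => ⟨?_, ?_⟩⟩
    · rw [tendsto_atTop] at t1 t2 ⊢
      intro b
      filter_upwards [t1 b, t2 b] with N a1 a2
      exact le_min a1 a2
    · simp only [EI_eq]
      exact h1' k hk (fun N => (hkh N).trans (min_le_left _ _)) ε hε
    · simp only [EP_eq]
      exact h2' k hk (fun N => (hkh N).trans (min_le_right _ _)) ε hε

end Pool.Agent.Results.MP_fb29e9_nt.AnnuliExcess
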