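import Pool.Agent.Q138.Met.ExcD
import Pool.Agent.Y969.QM4
import Pool.Agent.Y969.TW4
import Pool.Agent.Y969.Ex1

set_option autoImplicit false

/-!
# The conjectured bound in the circle problem near almost every dilation of a rapidly growing sequence

Bounds for the error term of the Gauss circle problem in windows around `t u_k`, for almost all `t > 0`, and for
all `t > 0` outside a set of small Hausdorff dimension.
-/

namespace Pool.Agent.Results.MP_fb29e9_nt.DilatedBounds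

open Filter Topology MeasureTheory
open Pool.Agent.Q138.Met

/-- Let `N(x) = #{p ∈ ℤ² : |p|² ≤ x}` and `E(x) = (N(x) - πx)/x^{1/4}` (so `x = R²`, and the conjecture of the
circle problem is `E(x) = O(x^ε)` for every `ε > 0`).

(1) Let `u_k > 0` be a sequence which grows faster than every power of `k`, for instance `u_k = 2^k`. For almost all
`t > 0` and all `B` and `η > 0` the bound `|E(x)| ≤ k^η` holds in the whole window
`t u_k ≤ x ≤ t u_k + k^B`, for all large `k`. For `u_k = 2^k` this is `N(x) - πx = O(x^{1/4} (log x)^η)` in the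
windows `[t 2^k, t 2^k + k^B]`.

(2) There is a constant `c > 0` such that for all `0 < ε ≤ c`, `κ = c ε log(1/ε)`, `0 ≤ lam ≤ 1` and all sequences
`u_k > 0` the set `T` of all `t > 0` for which the conjectured bound `|E(x)| ≤ x^ε` fails somewhere in the window
`t u_k ≤ x ≤ t u_k + u_k^lam`, for infinitely many `k`, is small: its `s`-dimensional Hausdorff measure is `0` for every
`s > 1 - κ + lam` with `∑ u_k^{1 - κ + lam - s} < ∞`, and its Hausdorff dimension is at most `1 - κ + lam` if `u_k` grows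
faster than every power of `k`. -/
theorem result (E : ℝ → ℝ)
    (hE : ∀ x : ℝ, E x =
      ((Nat.card {p : ℤ × ℤ // (p.1 : ℝ) ^ 2 + (p.2 : ℝ) ^ 2 ≤ x} : ℝ) - Real.pi * x) /
        x ^ (1 / 4 : ℝ)) :
    (∀ u : ℕ → ℝ, (∀ k, 0 < u k) → (∀ A : ℝ, ∀ᶠ k : ℕ in atTop, (k : ℝ) ^ A ≤ u k) →
      ∀ᵐ t : ℝ, 0 < t → ∀ B η : ℝ, 0 < η → ∀ᶠ k : ℕ in atTop, ∀ x : ℝ, t * u k ≤ x →
        x ≤ t * u k + (k : ℝ) ^ B → |E x| ≤ (k : ℝ) ^ η) ∧
    ∃ c : ℝ, 0 < c ∧ ∀ ε : ℝ, 0 < ε → ε ≤ c → ∀ κ : ℝ, κ = c * (ε * Real.log (1 / ε)) →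
      ∀ lam : ℝ, 0 ≤ lam → lam ≤ 1 → ∀ u : ℕ → ℝ, (∀ k, 0 < u k) →
      ∀ T : Set ℝ, T = {t : ℝ | 0 < t ∧ ∃ᶠ k in atTop, ∃ x : ℝ, t * u k ≤ x ∧
        x ≤ t * u k + (u k) ^ lam ∧ x ^ ε < |E x|} →
      (∀ s : ℝ, 1 - κ + lam < s → (Summable fun k => (u k) ^ (1 - κ + lam - s)) →
        μH[s] T = 0) ∧
      ((∀ A : ℝ, ∀ᶠ k : ℕ in atTop, (k : ℝ) ^ A ≤ u k) →
        dimH T ≤ ENNReal.ofReal (1 - κ + lam)) := by
  classical
  have hEc : E = Pool.Agent.H425R3.JL.Ec := funext hE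
  subst hEc
  obtain ⟨c₁, hc₁, h1⟩ := Pool.Agent.Y969.SW.exc_circle' (1 / 2) (by norm_num)
  obtain ⟨c, hc, hc2, -, hexc⟩ := exc_of hc₁ h1
  obtain ⟨ν, hν⟩ := Pool.Agent.Y969.SW.circ_trunc _ (fun m => rfl)
  obtain ⟨μ, -, -, -, hμ⟩ := hν 1 (fun _ => 1) (fun _ => 0) (fun _ => one_pos)
  have htr : ∀ p : ℝ, 0 < p → ∃ c₀ : ℝ, 0 < c₀ ∧ ∀ ε : ℝ, 0 < ε → ε ≤ c₀ →
      ∃ M : ℝ, 0 ≤ M ∧ ∃ N₀ : ℕ, ∀ N : ℕ, N₀ ≤ N → ∀ S : Finset ℕ,
        (∀ n ∈ S, N ≤ n ∧ n < 2 * N ∧ |Pool.Agent.H425R3.JL.Ec n| ≤ (n : ℝ) ^ ε) →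
          ∑ n ∈ S, |Pool.Agent.H425R3.JL.Ec n| ^ p ≤ M * N := by
    intro p hp
    obtain ⟨-, h2⟩ := hμ p hp
    obtain ⟨c₀, hc₀, h3⟩ := h2 (1 / 2) (by norm_num)
    have hn : ∀ n : ℕ, ‖(fun _ : Fin 1 => Pool.Agent.H425R3.JL.Ec (((1 : ℕ) : ℝ) * n + ((0 : ℕ) : ℝ)))‖ =
        |Pool.Agent.H425R3.JL.Ec n| := by
      intro n
      rw [pi_norm_const, Real.norm_eq_abs, Nat.cast_one, one_mul, Nat.cast_zero, add_zero]
    refine tr_of (ev := fun n (_ : Fin 1) =>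
      Pool.Agent.H425R3.JL.Ec (((1 : ℕ) : ℝ) * n + ((0 : ℕ) : ℝ))) (D := 1) one_pos
      (fun n => ?_) (fun n i => ?_) hp (c₀ := c₀)
      (I := ∫ x, ‖x‖ ^ p ∂(μ : Measure (Fin 1 → ℝ))) hc₀ (fun ε hε hεc => ?_)
    · rw [hn, one_mul]
    · simp
    · obtain ⟨N₀, hN₀⟩ := h3 ε hε hεc (fun x => ‖x‖ ^ p) (by fun_prop (disch := positivity))
        ⟨1, fun x => by
          rw [abs_of_nonneg (by positivity)]
          linarith⟩ 1 one_pos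
      refine ⟨N₀, fun N hN => ?_⟩
      convert (hN₀ N hN).1 N le_rfl (by norm_num)
  obtain ⟨m1, m2, m3⟩ := metric hc hc2 hexc htr
    (loc_of Pool.Agent.Y969.SW.Pc_loc fun x => rfl)
  refine ⟨m1, c, hc, ?_⟩
  rintro ε hε hεc κ rfl lam hlam hlam1 u hu T rfl
  exact ⟨m2 ε hε hεc lam hlam hlam1 u hu, m3 ε hε hεc lam hlam hlam1 u hu⟩

end Pool.Agent.Results.MP_fb29e9_nt.DilatedBounds
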