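import Pool.Agent.Q273.TA7

set_option autoImplicit false

/-!
# The number of lattice points in thin annuli with integer and prime radii

Let `A ρ n` be the number of the integer points `p` of the plane with `n < |p| ≤ n + ρ`. The area of the annulus
is `π (2 ρ n + ρ ^ 2)`. For a small fixed `ρ`, and `n` a random integer up to `N`, or a random prime up to `N`, the
number `A ρ n` is approximately normally distributed, with the explicit mean
`π (2 ρ n + ρ ^ 2) + √n D(ρ)` and the explicit variance `n V(ρ)`; the distance from the normal law tends to zero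
as `ρ → 0`, uniformly. (For every fixed `ρ` the limit law is not a normal law.) The same holds if the width of the
annulus is `1 / k` with `k = k(N)` tending to infinity slowly enough.

Here `D(ρ)` and `V(ρ)` come from the perfect squares, and from the other integers, respectively: the radii
`n` and `n + ρ` are such that the frequencies `√m` of the error term of the circle problem with `m` a perfect square
contribute a nonrandom term.
-/

namespace Pool.Agent.Results.MP_fb29e9_nt.ThinAnnuli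

open MeasureTheory ProbabilityTheory Filter Topology
open Pool.Agent.Q273.TA

/-- `r(m)`, the number of integer points at distance `√m` from the origin -/
noncomputable def rep (m : ℕ) : ℝ := (Nat.card {p : ℤ × ℤ // p.1 ^ 2 + p.2 ^ 2 = (m:ℤ)} : ℝ)

/-- `A ρ n`, the number of integer points `p` with `n < |p| ≤ n + ρ` -/
noncomputable def A (ρ : ℝ) (n : ℕ) : ℝ :=
  (Nat.card {p : ℤ × ℤ // (n:ℝ) ^ 2 < (p.1:ℝ) ^ 2 + (p.2:ℝ) ^ 2 ∧
    (p.1:ℝ) ^ 2 + (p.2:ℝ) ^ 2 ≤ ((n:ℝ) + ρ) ^ 2} : ℝ)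

/-- `D(ρ)`, the sum over the perfect squares `k ^ 2` -/
noncomputable def D (ρ : ℝ) : ℝ := √2 / (2 * Real.pi) * ∑' k : ℕ, rep (k ^ 2) / (k:ℝ) ^ (3/2:ℝ) *
  (1 - Real.cos (2 * Real.pi * (ρ * k)) + Real.sin (2 * Real.pi * (ρ * k)))

open Classical in
/-- `V(ρ)`, the sum over the integers `m` which are not perfect squares -/
noncomputable def V (ρ : ℝ) : ℝ := 2 / Real.pi ^ 2 * ∑' m : ℕ, if IsSquare m then 0 else
  rep m ^ 2 / (m:ℝ) ^ (3/2:ℝ) * Real.sin (Real.pi * (ρ * √(m:ℝ))) ^ 2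

/-- `Φ`, the standard normal distribution function -/
noncomputable def Phi (x : ℝ) : ℝ := (gaussianReal 0 1).real (Set.Iic x)

/-- the proportion, among the integers `1 ≤ n ≤ N`, of those with
`A ρ n ≤ π (2 ρ n + ρ ^ 2) + √n (D(ρ) + x √V(ρ))` -/
noncomputable def GI (ρ : ℝ) (N : ℕ) (x : ℝ) : ℝ :=
  (Nat.card {n : ℕ // 1 ≤ n ∧ n ≤ N ∧
    A ρ n ≤ Real.pi * (2 * ρ * n + ρ ^ 2) + √(n:ℝ) * (D ρ + x * √(V ρ))} : ℝ) / N

/-- the same proportion among the primes `p ≤ N` -/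
noncomputable def GP (ρ : ℝ) (N : ℕ) (x : ℝ) : ℝ :=
  (Nat.card {p : ℕ // p.Prime ∧ p ≤ N ∧
    A ρ p ≤ Real.pi * (2 * ρ * p + ρ ^ 2) + √(p:ℝ) * (D ρ + x * √(V ρ))} : ℝ) /
    (Nat.card {p : ℕ // p.Prime ∧ p ≤ N} : ℝ)

lemma rep_eq (m : ℕ) : rep m = Pool.Agent.H383.Gauss.rA m := (Pool.Agent.H383.Circ.rA_card m).symm

lemma D_eq (ρ : ℝ) : D ρ = Dm ρ := by
  unfold D Dm
  simp only [rep_eq]

lemma V_eq (ρ : ℝ) : V ρ = Vm ρ := by
  unfold V Vm vt
  simp only [rep_eq]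

lemma A_eq (ρ : ℝ) (n : ℕ) : A ρ n = An ρ n := rfl

lemma GI_eq (ρ : ℝ) (N : ℕ) (x : ℝ) : GI ρ N x = ((ev (SI N) ρ x).card : ℝ) / (SI N).card := by
  unfold GI
  rw [SI_card]
  congr 2
  apply Nat.subtype_card
  intro n
  unfold ev SI
  rw [Finset.mem_filter, Finset.mem_Icc, D_eq, V_eq, A_eq]
  tauto

lemma GP_eq (ρ : ℝ) (N : ℕ) (x : ℝ) : GP ρ N x = ((ev (SP N) ρ x).card : ℝ) / (SP N).card := by
  unfold GP
  congr 2
  · apply Nat.subtype_card
    intro n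
    unfold ev SP
    rw [Finset.mem_filter, Finset.mem_filter, Finset.mem_Icc, D_eq, V_eq, A_eq]
    constructor
    · rintro ⟨⟨⟨-, h2⟩, h3⟩, h4⟩
      exact ⟨h3, h2, h4⟩
    · rintro ⟨h3, h2, h4⟩
      exact ⟨⟨⟨h3.one_le, h2⟩, h3⟩, h4⟩
  · apply Nat.subtype_card
    intro n
    unfold SP
    rw [Finset.mem_filter, Finset.mem_Icc]
    constructor
    · rintro ⟨⟨-, h2⟩, h3⟩
      exact ⟨h3, h2⟩
    · rintro ⟨h3, h2⟩
      exact ⟨⟨h3.one_le, h2⟩, h3⟩

/-- **The number of lattice points in thin annuli with integer and prime radii is asymptotically normal.** -/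
theorem result :
    (∀ ε : ℝ, 0 < ε → ∃ ρ0 : ℝ, 0 < ρ0 ∧ ∀ ρ : ℝ, 0 < ρ → ρ ≤ ρ0 → 0 < V ρ ∧
      ∃ N0 : ℕ, ∀ N : ℕ, N0 ≤ N → ∀ x : ℝ, |GI ρ N x - Phi x| ≤ ε ∧ |GP ρ N x - Phi x| ≤ ε) ∧
    (∃ h : ℕ → ℕ, Tendsto h atTop atTop ∧
      ∀ k : ℕ → ℕ, Tendsto k atTop atTop → (∀ N, k N ≤ h N) → ∀ x : ℝ,
        Tendsto (fun N : ℕ => GI (1 / (k N : ℝ)) N x) atTop (𝓝 (Phi x)) ∧
        Tendsto (fun N : ℕ => GP (1 / (k N : ℝ)) N x) atTop (𝓝 (Phi x))) := by
  constructor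
  · intro ε hε
    obtain ⟨r1, h1, h1'⟩ := cdf_lim sys_I hε
    obtain ⟨r2, h2, h2'⟩ := cdf_lim sys_P hε
    obtain ⟨c, r3, hc, h3, -, h3'⟩ := Vm_lower
    refine ⟨min r1 (min r2 r3), lt_min h1 (lt_min h2 h3), fun ρ hρ hρ0 => ⟨?_, ?_⟩⟩
    · rw [V_eq]
      have := h3' ρ hρ (hρ0.trans ((min_le_right _ _).trans (min_le_right _ _)))
      have h4 : 0 < c * ρ ^ (6/5:ℝ) := by positivity
      linarith
    · obtain ⟨N1, hN1⟩ := h1' ρ hρ (hρ0.trans (min_le_left _ _))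
      obtain ⟨N2, hN2⟩ := h2' ρ hρ (hρ0.trans ((min_le_right _ _).trans (min_le_left _ _)))
      refine ⟨max N1 N2, fun N hN x => ⟨?_, ?_⟩⟩
      · rw [GI_eq]; exact hN1 N ((le_max_left _ _).trans hN) x
      · rw [GP_eq]; exact hN2 N ((le_max_right _ _).trans hN) x
  · obtain ⟨h1, t1, h1'⟩ := shrink sys_I
    obtain ⟨h2, t2, h2'⟩ := shrink sys_P
    refine ⟨fun N => min (h1 N) (h2 N), ?_, fun k hk hkh x => ⟨?_, ?_⟩⟩
    · rw [tendsto_atTop] at t1 t2 ⊢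
      intro b
      filter_upwards [t1 b, t2 b] with N a1 a2
      exact le_min a1 a2
    · simp only [GI_eq]
      exact h1' k hk (fun N => (hkh N).trans (min_le_left _ _)) x
    · simp only [GP_eq]
      exact h2' k hk (fun N => (hkh N).trans (min_le_right _ _)) x

end Pool.Agent.Results.MP_fb29e9_nt.ThinAnnuli
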